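import Pool.Agent.helper48.TH.Spec

set_option autoImplicit false

namespace TP.TW

open DP MeasureTheory Finset

open Classical in
/-- Extension by `false` of a configuration on the finite set `Ω`. -/
private noncomputable def INP_ext (Ω : Finset V) (x : Fin #Ω → Bool) (v : V) : Bool :=
  if h : v ∈ Ω then x (Ω.equivFin ⟨v, h⟩) else false

private noncomputable def INP_eps (Ω : Finset V) (i : Fin #Ω) : V := (Ω.equivFin.symm i : Ω).1

private lemma INP_inj (Ω : Finset V) : Function.Injective (INP_eps Ω) := by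
  intro i j h
  exact Ω.equivFin.symm.injective (Subtype.ext h)

private lemma INP_res (Ω : Finset V) (β : V → Bool) {v : V} (h : v ∈ Ω) :
    INP_ext Ω (fun i => β (INP_eps Ω i)) v = β v := by
  unfold INP_ext INP_eps
  rw [dif_pos h]
  simp

private lemma INP_set (Ω Λ : Finset V) (hs : Λ ⊆ Ω) (E : Set (V → Bool)) (h : CD E Λ) (β : V → Bool) :
    INP_ext Ω (fun i => β (INP_eps Ω i)) ∈ E ↔ β ∈ E :=
  h _ _ (fun v hv => INP_res Ω β (hs hv))

private lemma INP_dep (Ω Λ : Finset V) (hs : Λ ⊆ Ω) (E : Set (V → Bool)) (h : CD E Λ) (x y : Fin #Ω → Bool)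
    (hxy : ∀ i, INP_eps Ω i ∈ Λ → x i = y i) : INP_ext Ω x ∈ E ↔ INP_ext Ω y ∈ E := by
  apply h
  intro v hv
  unfold INP_ext
  rw [dif_pos (hs hv), dif_pos (hs hv)]
  apply hxy
  unfold INP_eps
  simpa using hv

open Classical in
theorem INP (inf : INF_stmt) (prn : PRN_stmt) : INP_stmt := by
  intro κ T E F Λ A M hE hF hM
  set Ω : Finset V := Λ ∪ T.biUnion A with hΩ
  have hΛ : Λ ⊆ Ω := subset_union_left
  have hA : ∀ τ ∈ T, A τ ⊆ Ω := fun τ hτ => (subset_biUnion_of_mem A hτ).trans subset_union_right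
  have pE : Pr E = (#{x : Fin #Ω → Bool | INP_ext Ω x ∈ E} : ℝ) / 2 ^ #Ω := by
    rw [← prn _ (INP_eps Ω) (INP_inj Ω) (fun x => INP_ext Ω x ∈ E)]
    congr 1
    ext β
    exact (INP_set Ω Λ hΛ E hE β).symm
  have pF : ∀ τ ∈ T, Pr (F τ) = (#{x : Fin #Ω → Bool | INP_ext Ω x ∈ F τ} : ℝ) / 2 ^ #Ω := by
    intro τ hτ
    rw [← prn _ (INP_eps Ω) (INP_inj Ω) (fun x => INP_ext Ω x ∈ F τ)]
    congr 1
    ext β
    exact (INP_set Ω (A τ) (hA τ hτ) (F τ) (hF τ hτ) β).symm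
  have pEF : ∀ τ ∈ T, Pr (E ∩ F τ) =
      (#{x : Fin #Ω → Bool | INP_ext Ω x ∈ E ∧ INP_ext Ω x ∈ F τ} : ℝ) / 2 ^ #Ω := by
    intro τ hτ
    have h := prn _ (INP_eps Ω) (INP_inj Ω) (fun x => INP_ext Ω x ∈ E ∧ INP_ext Ω x ∈ F τ)
    have e : {β : V → Bool | INP_ext Ω (fun i => β (INP_eps Ω i)) ∈ E ∧
        INP_ext Ω (fun i => β (INP_eps Ω i)) ∈ F τ} = E ∩ F τ := by
      ext β
      exact and_congr (INP_set Ω Λ hΛ E hE β) (INP_set Ω (A τ) (hA τ hτ) (F τ) (hF τ hτ) β)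
    rw [e] at h
    rw [h]
    refine congrArg (fun m : ℕ => (m : ℝ) / 2 ^ #Ω) (congrArg Finset.card ?_)
    ext x
    simp only [mem_filter]
  have key := inf #Ω κ T (fun x => INP_ext Ω x ∈ E) (fun τ x => INP_ext Ω x ∈ F τ)
    (univ.filter fun i => INP_eps Ω i ∈ Λ) (fun τ => univ.filter fun i => INP_eps Ω i ∈ A τ) M (Pr E) pE
    (by
      intro x y hxy
      apply INP_dep Ω Λ hΛ E hE
      intro i hi
      exact hxy i (mem_filter.2 ⟨mem_univ _, hi⟩))
    (by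
      intro τ hτ x y hxy
      apply INP_dep Ω (A τ) (hA τ hτ) (F τ) (hF τ hτ)
      intro i hi
      exact hxy i (mem_filter.2 ⟨mem_univ _, hi⟩))
    (by
      intro i hi
      have hi' : INP_eps Ω i ∈ Λ := (mem_filter.1 hi).2
      refine le_trans (card_le_card ?_) (hM _ hi')
      intro τ hτ
      rw [mem_filter] at hτ ⊢
      exact ⟨hτ.1, (mem_filter.1 hτ.2).2⟩)
  rw [sum_congr rfl pEF, sum_congr rfl pF]
  exact key

end TP.TW
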